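import Mathlib
import Pool.Agent.H577R3.RM.Stmts

set_option autoImplicit false

namespace Pool.Agent.H92R3.RM

open Pool.Agent.Helper777.Prof Pool.Agent.H577R3 Pool.Agent.H577R3.RM

/-- Heisenberg group over the rationals -/
@[ext] structure Hs where
  a : ℚ
  b : ℚ
  c : ℚ

namespace Hs

instance : Mul Hs := ⟨fun x y => ⟨x.a + y.a, x.b + y.b, x.c + y.c + x.a * y.b⟩⟩
instance : One Hs := ⟨⟨0, 0, 0⟩⟩
instance : Inv Hs := ⟨fun x => ⟨-x.a, -x.b, -x.c + x.a * x.b⟩⟩

@[simp] theorem mul_a (x y : Hs) : (x * y).a = x.a + y.a := rfl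
@[simp] theorem mul_b (x y : Hs) : (x * y).b = x.b + y.b := rfl
@[simp] theorem mul_c (x y : Hs) : (x * y).c = x.c + y.c + x.a * y.b := rfl
@[simp] theorem one_a : (1 : Hs).a = 0 := rfl
@[simp] theorem one_b : (1 : Hs).b = 0 := rfl
@[simp] theorem one_c : (1 : Hs).c = 0 := rfl
@[simp] theorem inv_a (x : Hs) : (x⁻¹).a = -x.a := rfl
@[simp] theorem inv_b (x : Hs) : (x⁻¹).b = -x.b := rfl
@[simp] theorem inv_c (x : Hs) : (x⁻¹).c = -x.c + x.a * x.b := rfl

instance : Group Hs := Group.ofLeftAxioms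
  (fun x y z => by ext <;> simp <;> ring)
  (fun x => by ext <;> simp)
  (fun x => by ext <;> simp)

/-- projection to the abelianisation -/
def p : Hs →* Multiplicative (ℚ × ℚ) where
  toFun x := Multiplicative.ofAdd (x.a, x.b)
  map_one' := rfl
  map_mul' _ _ := rfl

theorem mem_ker (x : Hs) : x ∈ p.ker ↔ x.a = 0 ∧ x.b = 0 := by
  rw [MonoidHom.mem_ker]
  change Multiplicative.ofAdd (x.a, x.b) = 1 ↔ _
  rw [ofAdd_eq_one, Prod.mk_eq_zero]

theorem derived : derivedSeries Hs 2 = ⊥ := by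
  have h1 : derivedSeries Hs 1 ≤ p.ker := by
    rw [derivedSeries_one]
    exact Abelianization.commutator_subset_ker p
  rw [derivedSeries_succ, eq_bot_iff, Subgroup.commutator_le]
  intro x hx y hy
  have hx' := (mem_ker x).1 (h1 hx)
  have hy' := (mem_ker y).1 (h1 hy)
  rw [Subgroup.mem_bot, commutatorElement_eq_one_iff_mul_comm]
  ext <;> simp [hx'.1, hx'.2, hy'.1, hy'.2]
  ring

end Hs

/-- the rational version of the exponent vector -/
theorem fa (n : ℕ) (φ ψ : (Fin n → ℚ) →ₗ[ℚ] ℚ) (F : FG n →* Hs)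
    (hF : ∀ l, F (FreeGroup.of l) = ⟨φ (Pi.single l 1), ψ (Pi.single l 1), 0⟩) (g : FG n) :
    (F g).a = φ (fun l => (abv g l : ℚ)) ∧ (F g).b = ψ (fun l => (abv g l : ℚ)) := by
  have key : ∀ χ : (Fin n → ℚ) →ₗ[ℚ] ℚ, ∀ q : Hs →* Multiplicative ℚ,
      (∀ l, q (F (FreeGroup.of l)) = Multiplicative.ofAdd (χ (Pi.single l 1))) →
      q (F g) = Multiplicative.ofAdd (χ (fun l => (abv g l : ℚ))) := by
    intro χ q hq
    let χ' : Zm n →* Multiplicative ℚ :=
      { toFun := fun u => Multiplicative.ofAdd (χ (fun l => ((Multiplicative.toAdd u) l : ℚ)))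
        map_one' := by
          have : (fun l : Fin n => (((Multiplicative.toAdd (1 : Zm n)) l : ℤ) : ℚ)) = 0 := by
            ext l; simp
          rw [this, map_zero]; rfl
        map_mul' := by
          intro u v
          have : (fun l : Fin n => (((Multiplicative.toAdd (u * v)) l : ℤ) : ℚ)) =
            (fun l : Fin n => (((Multiplicative.toAdd u) l : ℤ) : ℚ)) +
            (fun l : Fin n => (((Multiplicative.toAdd v) l : ℤ) : ℚ)) := by
            ext l; simp
          rw [this, map_add]; rfl }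
    have e : q.comp F = χ'.comp (abF n) := by
      apply FreeGroup.ext_hom
      intro l
      simp only [MonoidHom.comp_apply, hq, abF, FreeGroup.lift_apply_of]
      change _ = Multiplicative.ofAdd (χ (fun k => (((Pi.single l 1 : Fin n → ℤ) k : ℤ) : ℚ)))
      congr 2
      ext k
      by_cases h : k = l
      · subst h; simp
      · simp [h]
    exact DFunLike.congr_fun e g
  constructor
  · have := key φ ⟨⟨fun x => Multiplicative.ofAdd x.a, rfl⟩, fun _ _ => rfl⟩
      (fun l => by rw [hF]; rfl)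
    exact Multiplicative.ofAdd.injective this
  · have := key ψ ⟨⟨fun x => Multiplicative.ofAdd x.b, rfl⟩, fun _ _ => rfl⟩
      (fun l => by rw [hF]; rfl)
    exact Multiplicative.ofAdd.injective this

theorem taskNONAB : TaskNONAB := by
  intro n m r hmn hli
  -- rational exponent vectors
  set v : Fin m → Fin n → ℚ := fun j l => (abv (r j) l : ℚ) with hv
  have hliQ : LinearIndependent ℚ v := by
    rw [← LinearIndependent.iff_fractionRing ℤ ℚ]
    let ι : (Fin n → ℤ) →ₗ[ℤ] (Fin n → ℚ) :=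
      LinearMap.pi fun l => (Algebra.linearMap ℤ ℚ).comp (LinearMap.proj l)
    have hι : LinearMap.ker ι = ⊥ := by
      rw [LinearMap.ker_eq_bot]
      intro x y hxy
      ext l
      have := congrFun hxy l
      simpa [ι] using this
    exact hli.map' ι hι
  set W := Submodule.span ℚ (Set.range v) with hW
  have hWrank : Module.finrank ℚ W = m := by
    rw [hW, finrank_span_eq_card hliQ, Fintype.card_fin]
  have hquot : 2 ≤ Module.finrank ℚ ((Fin n → ℚ) ⧸ W) := by
    have := Submodule.finrank_quotient_add_finrank W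
    rw [hWrank, Module.finrank_fin_fun] at this
    omega
  -- a surjection onto the plane
  obtain ⟨F, hF⟩ : ∃ F : ((Fin n → ℚ) ⧸ W) →ₗ[ℚ] (Fin 2 → ℚ), Function.Surjective F := by
    obtain ⟨f, hf⟩ := exists_linearIndependent_of_le_finrank hquot
    obtain ⟨g, hg⟩ := (Fintype.linearCombination ℚ f).exists_leftInverse_of_injective
      (LinearMap.ker_eq_bot.2 (linearIndependent_iff_injective_fintypeLinearCombination.1 hf))
    refine ⟨g, fun y => ⟨Fintype.linearCombination ℚ f y, ?_⟩⟩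
    exact LinearMap.congr_fun hg y
  set φ : (Fin n → ℚ) →ₗ[ℚ] ℚ := (LinearMap.proj 0).comp (F.comp W.mkQ) with hφ
  set ψ : (Fin n → ℚ) →ₗ[ℚ] ℚ := (LinearMap.proj 1).comp (F.comp W.mkQ) with hψ
  have hzero : ∀ j, W.mkQ (v j) = 0 := by
    intro j
    rw [Submodule.mkQ_apply, Submodule.Quotient.mk_eq_zero]
    exact Submodule.subset_span ⟨j, rfl⟩
  have hφ0 : ∀ j, φ (v j) = 0 := fun j => by simp [hφ, hzero]
  have hψ0 : ∀ j, ψ (v j) = 0 := fun j => by simp [hψ, hzero]
  -- the homomorphism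
  let Φ : FG n →* Hs := FreeGroup.lift fun l => ⟨φ (Pi.single l 1), ψ (Pi.single l 1), 0⟩
  have hΦ : ∀ l, Φ (FreeGroup.of l) = ⟨φ (Pi.single l 1), ψ (Pi.single l 1), 0⟩ := fun l => by
    simp [Φ]
  -- the correction
  obtain ⟨τ, hτ⟩ : ∃ τ : (Fin n → ℚ) →ₗ[ℚ] ℚ, ∀ j, τ (v j) = -(Φ (r j)).c := by
    obtain ⟨g, hg⟩ := LinearMap.exists_extend
      ((Module.Basis.span hliQ).constr ℚ (fun j => -(Φ (r j)).c))
    refine ⟨g, fun j => ?_⟩
    have h1 := LinearMap.congr_fun hg ((Module.Basis.span hliQ) j)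
    rw [Module.Basis.constr_basis] at h1
    simp only [LinearMap.comp_apply, Submodule.subtype_apply, Module.Basis.span_apply] at h1
    exact h1
  let Ψ : FG n →* Hs :=
    { toFun := fun g => Φ g * ⟨0, 0, τ (fun l => (abv g l : ℚ))⟩
      map_one' := by
        have : (fun l : Fin n => ((abv (1 : FG n) l : ℤ) : ℚ)) = 0 := by
          ext l; simp [abv]
        rw [this, map_zero, map_one, one_mul]
        rfl
      map_mul' := by
        intro g h
        have : (fun l : Fin n => ((abv (g * h) l : ℤ) : ℚ)) =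
            (fun l : Fin n => ((abv g l : ℤ) : ℚ)) + fun l => ((abv h l : ℤ) : ℚ) := by
          ext l; simp [abv]
        rw [this, map_add, map_mul]
        ext <;> simp
        ring }
  have hker : relN r ≤ Ψ.ker := by
    unfold relN
    refine sup_le ?_ ?_
    · apply Subgroup.normalClosure_le_normal
      rintro _ ⟨j, rfl⟩
      rw [SetLike.mem_coe, MonoidHom.mem_ker]
      obtain ⟨h1, h2⟩ := fa n φ ψ Φ hΦ (r j)
      have h3 : τ (fun l => (abv (r j) l : ℚ)) = -(Φ (r j)).c := hτ j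
      change Φ (r j) * ⟨0, 0, τ (fun l => (abv (r j) l : ℚ))⟩ = 1
      rw [h3]
      have h4 : φ (fun l => (abv (r j) l : ℚ)) = 0 := hφ0 j
      have h5 : ψ (fun l => (abv (r j) l : ℚ)) = 0 := hψ0 j
      rw [h4] at h1
      rw [h5] at h2
      ext <;> simp [h1, h2]
    · intro x hx
      have h1 : Ψ x ∈ derivedSeries Hs 2 :=
        map_derivedSeries_le_derivedSeries Ψ 2 ⟨x, hx, rfl⟩
      rw [Hs.derived] at h1
      exact h1
  by_contra hcon
  push Not at hcon
  have hcomm : ∀ g h : FG n, Ψ g * Ψ h = Ψ h * Ψ g := by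
    intro g h
    have h1 := hcon (QuotientGroup.mk g) (QuotientGroup.mk h)
    have h2 := congrArg (QuotientGroup.lift (relN r) Ψ (fun x hx => hker hx)) h1
    simpa using h2
  have hll : ∀ l l' : Fin n, φ (Pi.single l 1) * ψ (Pi.single l' 1) =
      φ (Pi.single l' 1) * ψ (Pi.single l 1) := by
    intro l l'
    have h1 := congrArg Hs.c (hcomm (FreeGroup.of l) (FreeGroup.of l'))
    change (Φ (FreeGroup.of l) * ⟨0, 0, τ (fun k => (abv (FreeGroup.of l) k : ℚ))⟩ *
      (Φ (FreeGroup.of l') * ⟨0, 0, τ (fun k => (abv (FreeGroup.of l') k : ℚ))⟩)).c =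
      (Φ (FreeGroup.of l') * ⟨0, 0, τ (fun k => (abv (FreeGroup.of l') k : ℚ))⟩ *
      (Φ (FreeGroup.of l) * ⟨0, 0, τ (fun k => (abv (FreeGroup.of l) k : ℚ))⟩)).c at h1
    simp only [hΦ, Hs.mul_c, Hs.mul_a, Hs.mul_b] at h1
    linarith
  have hexp : ∀ χ : (Fin n → ℚ) →ₗ[ℚ] ℚ, ∀ u : Fin n → ℚ,
      χ u = ∑ l, u l * χ (Pi.single l 1) := by
    intro χ u
    rw [LinearMap.pi_apply_eq_sum_univ χ u]
    refine Finset.sum_congr rfl fun l _ => ?_
    rw [smul_eq_mul]
    congr 2
    ext j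
    simp [Pi.single_apply, eq_comm]
  have hbil : ∀ u w : Fin n → ℚ, φ u * ψ w = φ w * ψ u := by
    intro u w
    rw [hexp φ u, hexp ψ w, hexp φ w, hexp ψ u, Finset.sum_mul_sum, Finset.sum_mul_sum,
      Finset.sum_comm]
    refine Finset.sum_congr rfl fun l _ => Finset.sum_congr rfl fun l' _ => ?_
    linear_combination (u l' * w l) * hll l' l
  obtain ⟨x, hx⟩ := hF ![1, 0]
  obtain ⟨y, hy⟩ := hF ![0, 1]
  obtain ⟨u, rfl⟩ := W.mkQ_surjective x
  obtain ⟨w, rfl⟩ := W.mkQ_surjective y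
  have h1 := hbil u w
  have e1 : φ u = 1 := by
    simp only [hφ, LinearMap.comp_apply, LinearMap.proj_apply]; rw [hx]; rfl
  have e2 : ψ u = 0 := by
    simp only [hψ, LinearMap.comp_apply, LinearMap.proj_apply]; rw [hx]; rfl
  have e3 : φ w = 0 := by
    simp only [hφ, LinearMap.comp_apply, LinearMap.proj_apply]; rw [hy]; rfl
  have e4 : ψ w = 1 := by
    simp only [hψ, LinearMap.comp_apply, LinearMap.proj_apply]; rw [hy]; rfl
  rw [e1, e2, e3, e4] at h1
  norm_num at h1

end Pool.Agent.H92R3.RM
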